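import Pool.Agent.Helper80.MM.Stm
import Pool.Agent.Helper82.NL.PI
import Mathlib.NumberTheory.Transcendental.Liouville.Residual

/-!
# Package SEQ of project MM
-/

set_option autoImplicit false

namespace Pool.Agent.Helper93.MM

open Pool.Agent.Helper35.EM Pool.Agent.Helper56.HS Pool.Agent.Helper80.MM Set ComplexConjugate
  MeasureTheory

theorem countable_real {A : Set ℂ} (hA : A.Countable) : {x : ℝ | (x : ℂ) ∈ M.closure A}.Countable :=
  (countable_closure hA).preimage_of_injOn (Complex.ofReal_injective.injOn)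

theorem ae_free {A : Set ℂ} (hA : A.Countable) : ∀ᵐ x : ℝ, (x : ℂ) ∉ M.closure A :=
  (countable_real hA).ae_notMem volume

theorem exists_liouville {A : Set ℂ} (hA : A.Countable) :
    ∃ L : ℝ, Liouville L ∧ (L : ℂ) ∉ M.closure A := by
  have h1 := countable_real hA
  have h2 : ∀ᶠ x in residual ℝ, x ∉ {x : ℝ | (x : ℂ) ∈ M.closure A} := by
    have h3 : (⋂ y ∈ {x : ℝ | (x : ℂ) ∈ M.closure A}, ({y}ᶜ : Set ℝ)) ∈ residual ℝ :=
      (countable_bInter_mem h1).2 fun y _ =>
        residual_of_dense_open isOpen_compl_singleton (dense_compl_singleton y)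
    filter_upwards [h3] with x hx hxA
    exact (mem_iInter₂.1 hx x hxA) rfl
  obtain ⟨L, hL⟩ := (dense_of_mem_residual (eventually_residual_liouville.and h2)).nonempty
  exact ⟨L, hL.1, hL.2⟩

theorem mr_castSucc {D N : ℕ} (f : ℕ → ℝ) (h : MR D (fun i : Fin (N + 1) => f i)) :
    MR D (fun i : Fin N => f i) := by
  obtain ⟨C, hC⟩ := h
  refine ⟨C, fun H hH P hP hd hc => ?_⟩
  have hinj : Function.Injective (Fin.castSucc : Fin N → Fin (N + 1)) :=
    Fin.castSucc_injective N
  have h1 := hC H hH (MvPolynomial.rename Fin.castSucc P)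
    (fun h0 => hP (MvPolynomial.rename_injective _ hinj (by rw [h0, map_zero])))
    ((MvPolynomial.totalDegree_rename_le _ _).trans hd) (fun m => ?_)
  · rw [MvPolynomial.aeval_rename] at h1
    have e : ((fun i : Fin (N + 1) => f i) ∘ Fin.castSucc) = fun i : Fin N => f i := by
      funext i
      simp
    rw [e] at h1
    exact h1
  · by_cases hm : ∃ u : Fin N →₀ ℕ, u.mapDomain Fin.castSucc = m
    · obtain ⟨u, rfl⟩ := hm
      rw [MvPolynomial.coeff_rename_mapDomain _ hinj]
      exact hc u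
    · rw [MvPolynomial.coeff_rename_eq_zero _ _ _ (fun u hu => absurd ⟨u, hu⟩ hm), abs_zero]
      positivity

theorem mr_le {D : ℕ} (f : ℕ → ℝ) (N : ℕ) :
    ∀ j : ℕ, MR D (fun i : Fin (N + j) => f i) → MR D (fun i : Fin N => f i) := by
  intro j
  induction j with
  | zero => exact fun h => h
  | succ j ih => exact fun h => ih (mr_castSucc (N := N + j) f h)

/-- a good initial segment -/
def Good (D n : ℕ) (f : ℕ → ℝ) : Prop :=
  (∀ k < n, (f k : ℂ) ∉ M.closure ((fun j => (f j : ℂ)) '' Iio k)) ∧ MR D (fun i : Fin n => f i)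

theorem image_eq {f g : ℕ → ℝ} {k : ℕ} (h : ∀ j < k, f j = g j) :
    (fun j => (f j : ℂ)) '' Iio k = (fun j => (g j : ℂ)) '' Iio k :=
  image_congr fun j hj => by rw [h j hj]

theorem step (hM : S_METR) (hS : S_STEP) (D n : ℕ) (f : ℕ → ℝ) (h : Good D n f) :
    ∃ y : ℝ, Good D (n + 1) (Function.update f n y) := by
  have h1 := hS hM D n (fun i => f i) h.2
  have h2 := ae_free (A := (fun j => (f j : ℂ)) '' Iio n) ((Iio n).to_countable.image _)
  obtain ⟨y, hy1, hy2⟩ := (h1.and h2).exists
  refine ⟨y, fun k hk => ?_, ?_⟩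
  · have hj : ∀ j < k, Function.update f n y j = f j := fun j hj =>
      Function.update_of_ne (by omega) _ _
    rw [image_eq hj]
    rcases Nat.lt_or_ge k n with h3 | h3
    · rw [Function.update_of_ne (by omega)]
      exact h.1 k h3
    · obtain rfl : k = n := by omega
      rw [Function.update_self]
      exact hy2
  · have e : (fun i : Fin (n + 1) => Function.update f n y i) =
        Fin.snoc (α := fun _ => ℝ) (fun i : Fin n => f i) y := by
      funext i
      refine Fin.lastCases ?_ (fun i => ?_) i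
      · rw [Fin.snoc_last]
        simp
      · rw [Fin.snoc_castSucc]
        have : (i : ℕ) ≠ n := i.2.ne
        simp [Function.update_of_ne this]
    rw [e]
    exact hy1

theorem seq : S_SEQ := by
  intro hM hP hS hF D
  obtain ⟨u₀, hu₀, hu00, -⟩ := Pool.Agent.Helper82.NL.exists_freeR_pi 1 one_pos
  have hpi : ((Real.pi : ℝ) : ℂ) ∉ M.closure ∅ := by
    have h1 := hu₀.free 0
    have e : (fun n => (u₀ n : ℂ)) '' Iio 0 = ∅ := by simp
    rw [e] at h1
    simpa [hu00] using h1
  obtain ⟨L, hL, hLc⟩ := exists_liouville (A := {((Real.pi : ℝ) : ℂ)}) (countable_singleton _)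
  have hL0 : L ≠ 0 := by
    rintro rfl
    apply hLc
    have := cl_ratCast {((Real.pi : ℝ) : ℂ)} 0
    simpa using this
  have h1 := hF hM hP D L hL0
  have h2 := ae_free (A := {((Real.pi : ℝ) : ℂ), (L : ℂ)}) ((countable_singleton _).insert _)
  obtain ⟨u, hu1, hu2⟩ := (h1.and h2).exists
  have hu0 : u ≠ 0 := by
    rintro rfl
    apply hu2
    have := cl_ratCast {((Real.pi : ℝ) : ℂ), (L : ℂ)} 0
    simpa using this
  have hu3 : (u : ℂ) ∉ M.closure {((Real.pi : ℝ) : ℂ)} := fun h =>
    hu2 (cl_mono (by intro x hx; exact Or.inl hx) h)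
  have hLu : ((L * u ^ (D + 1) : ℝ) : ℂ) ∉ M.closure {((Real.pi : ℝ) : ℂ), (u : ℂ)} := by
    intro h
    have hu' : (u : ℂ) ∈ M.closure {((Real.pi : ℝ) : ℂ), (u : ℂ)} := cl_self (Or.inr rfl)
    have h3 : (L : ℂ) ∈ M.closure {((Real.pi : ℝ) : ℂ), (u : ℂ)} := by
      have h4 := cl_div h (cl_pow (D + 1) hu')
      have h5 : ((L * u ^ (D + 1) : ℝ) : ℂ) / (u : ℂ) ^ (D + 1) = L := by
        push_cast
        rw [mul_div_assoc, div_self (pow_ne_zero _ (Complex.ofReal_ne_zero.2 hu0)), mul_one]
      rwa [h5] at h4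
    have h4 : (u : ℂ) ∈ M.closure (insert (L : ℂ) {((Real.pi : ℝ) : ℂ)}) := by
      refine cl_exch ?_ hLc
      rw [Set.pair_comm] at h3
      exact h3
    rw [Set.pair_comm] at h4
    exact hu2 h4
  -- the start
  let f₀ : ℕ → ℝ := fun k => if k = 0 then Real.pi else if k = 1 then u else L * u ^ (D + 1)
  have hf0 : f₀ 0 = Real.pi := rfl
  have hf1 : f₀ 1 = u := rfl
  have hf2 : f₀ 2 = L * u ^ (D + 1) := rfl
  have hG₀ : Good D 3 f₀ := by
    constructor
    · intro k hk
      obtain rfl | rfl | rfl : k = 0 ∨ k = 1 ∨ k = 2 := by omega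
      · have e : (fun j => (f₀ j : ℂ)) '' Iio 0 = ∅ := by simp
        rw [e, hf0]
        exact hpi
      · have e : (fun j => (f₀ j : ℂ)) '' Iio 1 = {((Real.pi : ℝ) : ℂ)} := by
          have : (Iio 1 : Set ℕ) = {0} := by ext j; simp
          rw [this, image_singleton, hf0]
        rw [e, hf1]
        exact hu3
      · have e : (fun j => (f₀ j : ℂ)) '' Iio 2 = {((Real.pi : ℝ) : ℂ), (u : ℂ)} := by
          have : (Iio 2 : Set ℕ) = {0, 1} := by
            ext j; simp only [mem_Iio, mem_insert_iff, mem_singleton_iff]; omega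
          rw [this, image_pair, hf0, hf1]
        rw [e, hf2]
        exact hLu
    · have e : (fun i : Fin 3 => f₀ i) = ![Real.pi, u, L * u ^ (D + 1)] := by
        funext i
        fin_cases i <;> rfl
      rw [e]
      exact hu1
  choose y hy using fun (m : ℕ) (f : {f : ℕ → ℝ // Good D (m + 3) f}) =>
    step hM hS D (m + 3) f.1 f.2
  let F : (m : ℕ) → {f : ℕ → ℝ // Good D (m + 3) f} := fun m =>
    Nat.rec (motive := fun m => {f : ℕ → ℝ // Good D (m + 3) f}) ⟨f₀, hG₀⟩
      (fun m f => ⟨Function.update f.1 (m + 3) (y m f), hy m f⟩) m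
  have hFs : ∀ m, (F (m + 1)).1 = Function.update (F m).1 (m + 3) (y m (F m)) := fun m => rfl
  have hF1 : ∀ m k, k < m + 3 → (F (m + 1)).1 k = (F m).1 k := by
    intro m k hk
    rw [hFs, Function.update_of_ne (by omega)]
  have hF2 : ∀ m m' k, m ≤ m' → k < m + 3 → (F m').1 k = (F m).1 k := by
    intro m m' k hm
    induction m', hm using Nat.le_induction with
    | base => intro _; rfl
    | succ m' hm' ih =>
      intro hk
      rw [hF1 m' k (by omega), ih hk]
  let s : ℕ → ℝ := fun k => (F k).1 k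
  have hs : ∀ m k, k < m + 3 → s k = (F m).1 k := by
    intro m k hk
    rcases Nat.le_total k m with h3 | h3
    · exact (hF2 k m k h3 (by omega)).symm
    · exact hF2 m k k h3 hk
  -- the second sequence
  have ht : ∀ l : List ℂ, ∃ x : ℝ, 0 < x ∧
      (x : ℂ) ∉ M.closure (range (fun k => (s k : ℂ)) ∪ {a | a ∈ l}) := fun l => by
    obtain ⟨x, hx1, -, hx2⟩ := exists_near (range (fun k => (s k : ℂ)) ∪ {a | a ∈ l})
      ((countable_range _).union l.finite_toSet.countable) 1 1 one_pos one_pos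
    exact ⟨x, hx1, hx2⟩
  choose g hg1 hg2 using ht
  let f : ℕ → List ℂ := fun n => Nat.rec [] (fun _ l => (g l : ℂ) :: l) n
  have hfs : ∀ n, f (n + 1) = (g (f n) : ℂ) :: f n := fun n => rfl
  have hset : ∀ n, (fun k => ((g (f k) : ℝ) : ℂ)) '' Iio n = {a | a ∈ f n} := by
    intro n
    induction n with
    | zero =>
      ext a
      simp [f]
    | succ n ih =>
      have e : (Iio (n + 1) : Set ℕ) = insert n (Iio n) := by
        ext k
        simp only [mem_Iio, mem_insert_iff]
        omega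
      rw [e, image_insert_eq, ih, hfs]
      ext a
      simp
  refine ⟨s, fun k => g (f k), ?_, ?_, ⟨L, hL, ?_⟩, ?_, ?_, ?_⟩
  · exact hs 0 0 (by omega)
  · rw [hs 0 1 (by omega)]
    exact hu0
  · rw [hs 0 1 (by omega), hs 0 2 (by omega)]
    rfl
  · intro n
    have h3 := (F n).2.1 n (by omega)
    have h4 : ∀ j < n, s j = (F n).1 j := fun j hj => hs n j (by omega)
    rw [image_eq h4, hs n n (by omega)]
    exact h3
  · intro N
    have h3 := mr_le (F N).1 N 3 (F N).2.2
    have e : (fun i : Fin N => s i) = fun i : Fin N => (F N).1 i := by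
      funext i
      exact hs N i (by omega)
    rw [e]
    exact h3
  · refine ⟨fun n => ?_, fun n => ⟨_, hg1 (f n), rfl⟩, ?_, countable_range _⟩
    · rw [hset n]
      exact hg2 (f n)
    · rintro _ ⟨k, rfl⟩
      exact Complex.conj_ofReal _

end Pool.Agent.Helper93.MM
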